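import Pool.Agent.N375.AV.D
import Pool.Agent.Results.MP_be1fae_nt.WindowsWithoutSolutions

/-!
# No solutions of the generalised Fermat equation near functions of the values of compositions of additive functions

A solution `a x ^ p + b y ^ q = c z ^ r` with coefficients composed of primes of `S` is called reduced if no prime of `S`
divides `x y z` and `|x|`, `|y|`, `|z|` are `1` or no perfect powers; every solution becomes reduced if the primes of `S`
in the bases are moved to the coefficients and perfect powers to the exponents (which become larger).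

A function `f` is called dominated by the largest prime factor (`PD f`) if for some `C`, for `m ≥ 1` and all primes `p ≥ C`
larger than all prime powers dividing `m`, `f (m p) ≤ C p (1 + log (m p))^C`, and `f (m p)` determines `p`. Examples are the
additive functions `f` with `f (q ^ j) ≤ C q ^ j` and different values at different large primes (such as the sum of the
prime factors, with or without multiplicity), the largest prime factor and Kempner's function. Let
`F = f_1 ∘ f_2 ∘ ⋯ ∘ f_k` be a composition of such functions; `F m` is in general much smaller than `m`, and the values are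
taken very often.

Let `G` have steps bounded below by a positive constant and growth at most `v^d`, `d ≥ 1`; for example `G v = α v^d`. Let
`0 ≤ θ < 1`. If `2 ∉ S`, there is `R` (depending on `S`, `d`, `θ`) such that for all `m ≤ N` but
`K N exp (- c (log N)^(1 / (k + 1)))` there is NO reduced solution with two exponents `≥ R` and
`|max (|x|, |y|, |z|) - G (F m)| ≤ F(m)^θ`. If `d / 3 + θ < 1` there is, for every `S`, such an `R` for the windows
`||x y z| - G (F m)| ≤ F(m)^θ`.

Proof. The number of the solutions is bounded by the starting theorem `AllSolutionsByBases` of this problem; the `v` with a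
solution near `G v` form a set with a power saving. If `E` has at most `K X exp (- c (log X)^β)` elements up to `X`, then so
has the set of the `m` with `f m ∈ E`, with `β / (1 + β)` for `β`: write `m = p n`, `p` the largest prime factor (few `m` have
a small `p` or are divisible by a large square); for each `n` the value `f (p n)` determines `p`, and is at most `p`, up to a
power of the logarithm.
-/

set_option autoImplicit false

open Finset

namespace Pool.Agent.Results.MP_be1fae_nt.AdditiveValues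

open Pool.Agent.N733.TG (Expanding expanding_pow)
open Pool.Agent.N375.AV (PD comp win_nat pd_additive pd_sopfr pd_largest pd_kempner)
open AllSolutionsByBases (Solution TwoLarge ByBases ByProduct Bases)
open WindowsWithoutSolutions (Reduced Val card_val)

/-- **No solutions near the values of compositions of additive functions.** Let `F = f_1 ∘ ⋯ ∘ f_k` with functions
dominated by the largest prime factor. Let `G` have steps `≥ a > 0` and growth at most `v^d`. Let `S` be a finite set and
`0 ≤ θ < 1`.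
(1) If `2 ∉ S` there is `R`, depending only on `S`, `d` and `θ`, such that for some `c₀ > 0`, `K` and all `N ≥ 1`, for all
`m ≤ N` but `K N exp (- c₀ (log N)^(1 / (k + 1)))`, there is no reduced `S`-solution `a x ^ p + b y ^ q = c z ^ r` with at
least two exponents `≥ R` and `|max (|x|, |y|, |z|) - G (F m)| ≤ F(m)^θ`.
(2) If `d / 3 + θ < 1` there is such an `R` for every `S` and the windows `||x y z| - G (F m)| ≤ F(m)^θ`.
The additive functions with `f (q ^ j) ≤ C q ^ j` which are injective at the large primes, the sum of the prime factors with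
multiplicity, the largest prime factor and Kempner's function are dominated by the largest prime factor, and `α v^d` with
`α > 0`, `d ≥ 1` is an example of `G`. -/
theorem result :
    (∀ (S : Finset ℕ) (d θ : ℝ), 1 ≤ d → 0 ≤ θ →
      (2 ∉ S → θ < 1 → ∃ R : ℕ, ∀ G : ℕ → ℝ, Expanding G d →
        ∀ fs : List (ℕ → ℕ), (∀ f ∈ fs, PD f) → ∃ c₀ K : ℝ, 0 < c₀ ∧ ∀ N : ℕ, 1 ≤ N →
        ({m : ℕ | 1 ≤ m ∧ m ≤ N ∧ ∃ (a b c x y z : ℤ) (p q r : ℕ), Reduced S R a b c x y z p q r ∧
          |((max (max x.natAbs y.natAbs) z.natAbs : ℕ) : ℝ) - G (comp fs m)| ≤ (comp fs m : ℝ) ^ θ}.ncard : ℝ) ≤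
            K * N * Real.exp (-(c₀ * Real.log N ^ ((1 : ℝ) / (fs.length + 1))))) ∧
      (d / 3 + θ < 1 → ∃ R : ℕ, ∀ G : ℕ → ℝ, Expanding G d →
        ∀ fs : List (ℕ → ℕ), (∀ f ∈ fs, PD f) → ∃ c₀ K : ℝ, 0 < c₀ ∧ ∀ N : ℕ, 1 ≤ N →
        ({m : ℕ | 1 ≤ m ∧ m ≤ N ∧ ∃ (a b c x y z : ℤ) (p q r : ℕ), Reduced S R a b c x y z p q r ∧
          |(((x * y * z).natAbs : ℕ) : ℝ) - G (comp fs m)| ≤ (comp fs m : ℝ) ^ θ}.ncard : ℝ) ≤
            K * N * Real.exp (-(c₀ * Real.log N ^ ((1 : ℝ) / (fs.length + 1)))))) ∧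
    ((∀ f : ℕ → ℕ, (∀ a b : ℕ, Nat.Coprime a b → f (a * b) = f a + f b) →
        (∃ C : ℕ, ∀ q j : ℕ, q.Prime → 1 ≤ j → f (q ^ j) ≤ C * q ^ j) →
        (∃ P : ℕ, ∀ p q : ℕ, p.Prime → q.Prime → P ≤ p → P ≤ q → f p = f q → p = q) → PD f) ∧
      PD (fun n => n.primeFactorsList.sum) ∧ PD (fun n => n.primeFactors.sup id) ∧
      PD (fun n => sInf {k : ℕ | n ∣ k.factorial})) ∧
    ∀ α d : ℝ, 0 < α → 1 ≤ d → Expanding (fun v => α * (v : ℝ) ^ d) d := by
  classical
  refine ⟨fun S d θ hd hθ => ⟨fun h2 hθ1 => ?_, fun h1 => ?_⟩, 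
    ⟨fun _ h1 h2 h3 => pd_additive h1 h2 h3, pd_sopfr, pd_largest, pd_kempner⟩,
    fun α d hα hd => expanding_pow hα hd⟩
  · have hδ0 : 0 < (1 - θ) / (2 * d) := div_pos (by linarith) (by linarith)
    have hδd : d * ((1 - θ) / (2 * d)) = (1 - θ) / 2 := by field_simp
    obtain ⟨R, C, hC, h⟩ := AllSolutionsByBases.result.2.1 S ((1 - θ) / (2 * d)) h2 hδ0
    refine ⟨R, fun G hG fs hf => ?_⟩
    obtain ⟨c₀, K, hc₀, hN₀⟩ := win_nat (Val S R (fun x y z => max (max x y) z)) fs hf hG
      (s := (1 - θ) / (2 * d)) (κ := θ) hδ0.le hθ (by rw [hδd]; linarith) (fun ε hε => by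
        refine ⟨C, fun X hX => ?_⟩
        have hX1 : (1 : ℝ) ≤ X := by exact_mod_cast hX
        obtain ⟨h5, h6⟩ := h X hX1
        have h7 := card_val S R (fun x y z => max (max x y) z) X (ByBases S R X) h5 (by
          intro a b c x y z p q r hred hle
          have hb : ∀ u : ℤ, u.natAbs ≤ X → |(u : ℝ)| ≤ X := by
            intro u hu
            have h8 : ((u.natAbs : ℕ) : ℝ) ≤ X := by exact_mod_cast hu
            rwa [Nat.cast_natAbs, Int.cast_abs] at h8
          have hle' : max (max x.natAbs y.natAbs) z.natAbs ≤ X := hle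
          rw [max_le_iff, max_le_iff] at hle'
          exact ⟨a, b, c, x, y, z, p, q, r, hred.1, rfl, hred.2.1, hred.2.2.2.2.2.2,
            hb x hle'.1.1, hb y hle'.1.2, hb z hle'.2⟩)
        have h9 : (((Ioc 0 X).filter (fun t => t ∈ Val S R (fun x y z => max (max x y) z))).card : ℝ) ≤
            ((ByBases S R X).ncard : ℝ) := by exact_mod_cast h7
        refine h9.trans (h6.trans ?_)
        apply mul_le_mul_of_nonneg_left _ hC.le
        apply Real.rpow_le_rpow_of_exponent_le hX1
        linarith)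
    refine ⟨c₀, K, hc₀, fun N hN => le_trans ?_ (hN₀ N hN)⟩
    have hsub : {m : ℕ | 1 ≤ m ∧ m ≤ N ∧ ∃ (a b c x y z : ℤ) (p q r : ℕ), Reduced S R a b c x y z p q r ∧
          |((max (max x.natAbs y.natAbs) z.natAbs : ℕ) : ℝ) - G (comp fs m)| ≤ (comp fs m : ℝ) ^ θ} ⊆
        {m : ℕ | 1 ≤ m ∧ m ≤ N ∧ ∃ n : ℕ, (n = 0 ∨ n ∈ Val S R (fun x y z => max (max x y) z)) ∧
          |(n : ℝ) - G (comp fs m)| ≤ (comp fs m : ℝ) ^ θ} := by
      rintro m ⟨e1, e2, a, b, c, x, y, z, p, q, r, hred, e3⟩
      exact ⟨e1, e2, _, Or.inr ⟨a, b, c, x, y, z, p, q, r, hred, rfl⟩, e3⟩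
    exact_mod_cast Set.ncard_le_ncard hsub ((Set.finite_Icc 1 N).subset fun m hm => ⟨hm.1, hm.2.1⟩)
  · have hδ0 : 0 < (1 - θ - d / 3) / (2 * d) := div_pos (by linarith) (by linarith)
    have hδd : d * ((1 - θ - d / 3) / (2 * d)) = (1 - θ - d / 3) / 2 := by field_simp
    obtain ⟨R, C, hC, h⟩ := AllSolutionsByBases.result.2.2 S ((1 - θ - d / 3) / (2 * d)) hδ0
    refine ⟨R, fun G hG fs hf => ?_⟩
    obtain ⟨c₀, K, hc₀, hN₀⟩ := win_nat (Val S R (fun x y z => x * y * z)) fs hf hG
      (s := 1 / 3 + (1 - θ - d / 3) / (2 * d)) (κ := θ) (by linarith) hθ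
      (by rw [mul_add, hδd]; linarith) (fun ε hε => by
        refine ⟨C, fun X hX => ?_⟩
        have hX1 : (1 : ℝ) ≤ X := by exact_mod_cast hX
        obtain ⟨h5, h6⟩ := h X hX1
        have h7 := card_val S R (fun x y z => x * y * z) X (ByProduct S R X) h5 (by
          intro a b c x y z p q r hred hle
          refine ⟨a, b, c, x, y, z, p, q, r, hred.1, rfl, hred.2.1, hred.2.2.2.2.2.2, ?_⟩
          have h8 : ((x.natAbs * y.natAbs * z.natAbs : ℕ) : ℝ) ≤ X := by exact_mod_cast hle
          rw [← Int.natAbs_mul, ← Int.natAbs_mul, Nat.cast_natAbs, Int.cast_abs] at h8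
          exact h8)
        have h9 : (((Ioc 0 X).filter (fun t => t ∈ Val S R (fun x y z => x * y * z))).card : ℝ) ≤
            ((ByProduct S R X).ncard : ℝ) := by exact_mod_cast h7
        refine h9.trans (h6.trans ?_)
        apply mul_le_mul_of_nonneg_left _ hC.le
        apply Real.rpow_le_rpow_of_exponent_le hX1
        linarith)
    refine ⟨c₀, K, hc₀, fun N hN => le_trans ?_ (hN₀ N hN)⟩
    have hsub : {m : ℕ | 1 ≤ m ∧ m ≤ N ∧ ∃ (a b c x y z : ℤ) (p q r : ℕ), Reduced S R a b c x y z p q r ∧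
          |(((x * y * z).natAbs : ℕ) : ℝ) - G (comp fs m)| ≤ (comp fs m : ℝ) ^ θ} ⊆
        {m : ℕ | 1 ≤ m ∧ m ≤ N ∧ ∃ n : ℕ, (n = 0 ∨ n ∈ Val S R (fun x y z => x * y * z)) ∧
          |(n : ℝ) - G (comp fs m)| ≤ (comp fs m : ℝ) ^ θ} := by
      rintro m ⟨e1, e2, a, b, c, x, y, z, p, q, r, hred, e3⟩
      refine ⟨e1, e2, _, Or.inr ⟨a, b, c, x, y, z, p, q, r, hred, ?_⟩, e3⟩
      rw [Int.natAbs_mul, Int.natAbs_mul]
    exact_mod_cast Set.ncard_le_ncard hsub ((Set.finite_Icc 1 N).subset fun m hm => ⟨hm.1, hm.2.1⟩)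

end Pool.Agent.Results.MP_be1fae_nt.AdditiveValues
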