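import Mathlib
import Pool.Agent.N741.SU.Main
import Pool.Agent.N741.HB.Thm2
import Pool.Agent.Y902.GN.FinB
import Pool.Agent.Y902.FD.Be

/-!
# Generalised Fermat equations with `S`-unit coefficients: a third base of exponential size

For every finite set `S` of primes, all `P` and `ε > 0` there are `R` and `δ > 0` such that for all large
`N` at most `N ^ ε` triples of terms `(a x ^ p, b y ^ q, c z ^ r)` come from `S`-solutions of
`a x ^ p + b y ^ q = c z ^ r` with `p, q ≥ 2`, `r ≥ R` and terms of absolute value at most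
`exp (N ^ δ)`, in which `x` and `y` are, up to sign, products of powers of (the same) `P` integers between
`1` and `N`, which are not given. The signs of `a`, `b`, `c` are arbitrary, so the term with the large
exponent may stand in any position. The exponents, the `S`-unit coefficients and the third base `z` are
free; `z` may be of exponential size.

Proof. There are few coefficients `c`. For fixed `c` the theorem on large parts of project HB (Mason's
theorem over function fields in an ultraproduct, determinant method with a large function) gives few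
possibilities for the product `A` of the large prime-like factors of the first two terms; then
`c ^ (r - 1) (A₁ s₁ + A₂ s₂) = (c z) ^ r` with `s₁, s₂` of polynomial size, and the theorem on power values of
linear forms with coefficients of exponential size applies. Two terms of polynomial size: all bases and
coefficients are of polynomial size, and the bound of the starting library for the number of solutions
with bounded bases applies.
-/

set_option autoImplicit false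

namespace Pool.Agent.Results.MP_be1fae_nt.HugeThirdBase

/-- `S`-solutions of `a x ^ p + b y ^ q = c z ^ r`: nonzero integers, the primes dividing `a b c` are in
`S`, and `gcd (a x, b y, c z) = 1` -/
def Solution (S : Finset ℕ) (a b c x y z : ℤ) (p q r : ℕ) : Prop :=
  a ≠ 0 ∧ b ≠ 0 ∧ c ≠ 0 ∧ x ≠ 0 ∧ y ≠ 0 ∧ z ≠ 0 ∧
    (∀ l : ℕ, l.Prime → (l : ℤ) ∣ a * b * c → l ∈ S) ∧
    Int.gcd ((Int.gcd (a * x) (b * y) : ℕ) : ℤ) (c * z) = 1 ∧ a * x ^ p + b * y ^ q = c * z ^ r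

/-- `x` and `y` are, up to sign, products of powers of the same `P` integers between `1` and `N` -/
def Generated (P N : ℕ) (x y : ℤ) : Prop :=
  ∃ w e f : Fin P → ℕ, (∀ j, 1 ≤ w j ∧ w j ≤ N) ∧ x.natAbs = ∏ j, w j ^ e j ∧
    y.natAbs = ∏ j, w j ^ f j

/-- The triples of terms, of absolute value at most `W`, of the `S`-solutions with `p, q ≥ 2`, `r ≥ R`
and `x`, `y` generated by `P` integers between `1` and `N`. -/
def Terms (S : Finset ℕ) (P R N : ℕ) (W : ℝ) : Set (ℤ × ℤ × ℤ) :=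
  {t | ∃ (a b c x y z : ℤ) (p q r : ℕ), Solution S a b c x y z p q r ∧ 2 ≤ p ∧ 2 ≤ q ∧ R ≤ r ∧
    Generated P N x y ∧ t = (a * x ^ p, b * y ^ q, c * z ^ r) ∧ ((|t.1| : ℤ) : ℝ) ≤ W ∧
    ((|t.2.1| : ℤ) : ℝ) ≤ W ∧ ((|t.2.2| : ℤ) : ℝ) ≤ W}

open Pool.Agent.N741.HB Pool.Agent.N741.SU

/-- the coefficients as products of powers of the primes of `S` -/
theorem coef {S : Finset ℕ} {a : ℤ} (ha : a ≠ 0) (hS : ∀ l : ℕ, l.Prime → (l : ℤ) ∣ a → l ∈ S) :
    a.natAbs = ∏ i : Fin (S.filter Nat.Prime).card,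
      (((S.filter Nat.Prime).equivFin.symm i : ℕ)) ^
        a.natAbs.factorization ((S.filter Nat.Prime).equivFin.symm i) := by
  have h1 : (∏ i : Fin (S.filter Nat.Prime).card, (((S.filter Nat.Prime).equivFin.symm i : ℕ)) ^
      a.natAbs.factorization ((S.filter Nat.Prime).equivFin.symm i)) =
      ∏ l : (S.filter Nat.Prime), ((l : ℕ)) ^ a.natAbs.factorization l :=
    Equiv.prod_comp (S.filter Nat.Prime).equivFin.symm
      (fun l : (S.filter Nat.Prime) => (l : ℕ) ^ a.natAbs.factorization l)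
  rw [h1, Finset.prod_coe_sort (S.filter Nat.Prime) (fun l => l ^ a.natAbs.factorization l)]
  have h2 := Nat.prod_factorization_pow_eq_self (Int.natAbs_ne_zero.2 ha)
  rw [Finsupp.prod_of_support_subset (s := S.filter Nat.Prime)] at h2
  · exact h2.symm
  · intro l hl
    have hl' : l ∈ a.natAbs.primeFactors := hl
    rw [Nat.mem_primeFactors] at hl'
    exact Finset.mem_filter.2 ⟨hS l hl'.1 (Int.natCast_dvd.2 hl'.2.1), hl'.1⟩
  · intro i _
    exact pow_zero i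

theorem cop {S : Finset ℕ} {a b c x y z : ℤ} {p q r : ℕ} (h : Solution S a b c x y z p q r) :
    Nat.Coprime (a * x ^ p).natAbs (b * y ^ q).natAbs := by
  obtain ⟨a0, b0, c0, x0, y0, z0, hS, hg, heq⟩ := h
  refine Nat.Coprime.symm (Nat.coprime_of_dvd fun l hl h1 h2 => ?_)
  have h1' : (l : ℤ) ∣ b * y ^ q := Int.natCast_dvd.2 h1
  have h2' : (l : ℤ) ∣ a * x ^ p := Int.natCast_dvd.2 h2
  have h3 : (l : ℤ) ∣ c * z ^ r := by rw [← heq]; exact dvd_add h2' h1'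
  have hp : Prime (l : ℤ) := Nat.prime_iff_prime_int.1 hl
  have key : ∀ {u v : ℤ} {k : ℕ}, (l : ℤ) ∣ u * v ^ k → (l : ℤ) ∣ u * v := by
    intro u v k h
    rcases hp.dvd_or_dvd h with h | h
    · exact h.mul_right v
    · exact (hp.dvd_of_dvd_pow h).mul_left u
  have h4 := Int.dvd_coe_gcd (Int.dvd_coe_gcd (key h2') (key h1')) (key h3)
  rw [hg] at h4
  exact hp.not_dvd_one (by exact_mod_cast h4)

theorem pt {S : Finset ℕ} {P R R' N : ℕ} {δ δ' : ℝ} (hN : 1 ≤ N) (hNS : ∀ l ∈ S, l ≤ N)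
    (hR : R' ≤ R) (hδ : δ ≤ δ') {t : ℤ × ℤ × ℤ}
    (ht : t ∈ Terms S P R N (Real.exp ((N : ℝ) ^ δ))) :
    ∃ w e c z r, Pt S (P + (S.filter Nat.Prime).card) R' δ' N t w e c z r := by
  obtain ⟨a, b, c, x, y, z, p, q, r, hs, hp, hq, hr, ⟨w, e, f, hw, hx, hy⟩, rfl, b1, b2, b3⟩ := ht
  have hcop := cop hs
  obtain ⟨a0, b0, c0, x0, y0, z0, hS, hg, heq⟩ := hs
  have hexp : Real.exp ((N : ℝ) ^ δ) ≤ Real.exp ((N : ℝ) ^ δ') :=
    Real.exp_le_exp.2 (Real.rpow_le_rpow_of_exponent_le (by exact_mod_cast hN) hδ)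
  have ha := coef (S := S) a0 fun l hl hd => hS l hl ((hd.mul_right b).mul_right c)
  have hb := coef (S := S) b0 fun l hl hd => hS l hl ((hd.mul_left a).mul_right c)
  refine ⟨Fin.append w fun i => ((S.filter Nat.Prime).equivFin.symm i : ℕ),
    ![Fin.append (fun j => e j * p) (fun i => a.natAbs.factorization
      ((S.filter Nat.Prime).equivFin.symm i)),
      Fin.append (fun j => f j * q) (fun i => b.natAbs.factorization
      ((S.filter Nat.Prime).equivFin.symm i))], c, z, r, mul_ne_zero a0 (pow_ne_zero _ x0),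
    mul_ne_zero b0 (pow_ne_zero _ y0), heq, hcop, b1.trans hexp, b2.trans hexp, b3.trans hexp, ?_,
    ?_, ?_, c0, fun l hl hd => hS l hl (hd.mul_left _), rfl, z0, hR.trans hr⟩
  · intro j
    refine Fin.addCases (fun i => ?_) (fun i => ?_) j
    · rw [Fin.append_left]
      exact hw i
    · rw [Fin.append_right]
      have h1 := ((S.filter Nat.Prime).equivFin.symm i).2
      obtain ⟨h2, h3⟩ := Finset.mem_filter.1 h1
      exact ⟨h3.one_le, hNS _ h2⟩
  · show (a * x ^ p).natAbs = _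
    rw [Fin.prod_univ_add]
    simp only [Matrix.cons_val_zero, Fin.append_left, Fin.append_right]
    rw [← ha, Int.natAbs_mul, Int.natAbs_pow, hx, ← Finset.prod_pow, mul_comm]
    congr 1
    exact Finset.prod_congr rfl fun j _ => by rw [pow_mul]
  · show (b * y ^ q).natAbs = _
    rw [Fin.prod_univ_add]
    simp only [Matrix.cons_val_one, Matrix.cons_val_zero, Fin.append_left, Fin.append_right]
    rw [← hb, Int.natAbs_mul, Int.natAbs_pow, hy, ← Finset.prod_pow, mul_comm]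
    congr 1
    exact Finset.prod_congr rfl fun j _ => by rw [pow_mul]

theorem base_le {a x : ℤ} {p : ℕ} (ha : a ≠ 0) (hx : x ≠ 0) (hp : p ≠ 0) : |x| ≤ |a * x ^ p| := by
  rw [abs_mul, abs_pow]
  calc |x| ≤ |x| ^ p := le_self_pow₀ (Int.one_le_abs hx) hp
    _ ≤ |a| * |x| ^ p := le_mul_of_one_le_left (by positivity) (Int.one_le_abs ha)

theorem coef_le {a x : ℤ} {p : ℕ} (hx : x ≠ 0) : |a| ≤ |a * x ^ p| := by
  rw [abs_mul, abs_pow]
  exact le_mul_of_one_le_right (abs_nonneg _) (one_le_pow₀ (Int.one_le_abs hx))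

/-- the solutions with two small terms -/
theorem small {S : Finset ℕ} {P R R3 N K : ℕ} {W δ3 : ℝ} (hN : 2 ≤ N) (hR : R3 ≤ R) (hR2 : 2 ≤ R)
    (hexp : ((N ^ (K + 1) : ℕ) : ℝ) ≤ Real.exp (((N ^ (K + 1) : ℕ) : ℝ) ^ δ3)) {t : ℤ × ℤ × ℤ}
    (ht : t ∈ Terms S P R N W) (h1 : |t.1| ≤ (N : ℤ) ^ K) (h2 : |t.2.1| ≤ (N : ℤ) ^ K) :
    t ∈ Pool.Agent.Y902.FD.UnitOne S (N ^ (K + 1)) R3 (((N ^ (K + 1) : ℕ) : ℝ) ^ 1)
      (Real.exp (((N ^ (K + 1) : ℕ) : ℝ) ^ δ3)) := by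
  obtain ⟨a, b, c, x, y, z, p, q, r, hs, hp, hq, hr, hgen, rfl, -, -, -⟩ := ht
  obtain ⟨a0, b0, c0, x0, y0, z0, hS, hg, heq⟩ := hs
  simp only at h1 h2
  have hN2 : (2 : ℤ) ≤ N := by exact_mod_cast hN
  have hle : (N : ℤ) ^ K ≤ (N : ℤ) ^ (K + 1) := pow_le_pow_right₀ (by omega) (Nat.le_succ K)
  have h3 : |c * z ^ r| ≤ (N : ℤ) ^ (K + 1) := by
    rw [← heq]
    calc |a * x ^ p + b * y ^ q| ≤ |a * x ^ p| + |b * y ^ q| := abs_add_le _ _
      _ ≤ (N : ℤ) ^ K + (N : ℤ) ^ K := add_le_add h1 h2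
      _ = 2 * (N : ℤ) ^ K := by ring
      _ ≤ N * (N : ℤ) ^ K := mul_le_mul_of_nonneg_right hN2 (by positivity)
      _ = (N : ℤ) ^ (K + 1) := by ring
  have h1 := h1.trans hle
  have h2 := h2.trans hle
  have hcast : ∀ {u : ℤ}, |u| ≤ (N : ℤ) ^ (K + 1) → ((|u| : ℤ) : ℝ) ≤ ((N ^ (K + 1) : ℕ) : ℝ) := by
    intro u hu
    have : ((|u| : ℤ) : ℝ) ≤ (((N : ℤ) ^ (K + 1) : ℤ) : ℝ) := Int.cast_le.2 hu
    push_cast at this ⊢
    exact this
  have hcast' : ∀ {u : ℤ}, |u| ≤ (N : ℤ) ^ (K + 1) → |u| ≤ ((N ^ (K + 1) : ℕ) : ℤ) := by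
    intro u hu
    push_cast
    exact hu
  refine ⟨⟨(hcast h1).trans hexp, (hcast h2).trans hexp, (hcast h3).trans hexp⟩, a, b, c, x, y, z, p,
    q, r, ⟨a0, b0, c0, x0, y0, z0, hcast' ((base_le a0 x0 (by omega)).trans h1),
      hcast' ((base_le b0 y0 (by omega)).trans h2),
      hcast' ((base_le c0 z0 (by omega)).trans h3), hg, heq⟩, hp, hq, hR2.trans hr,
    Or.inr (Or.inr (hR.trans hr)), ?_, ?_, ?_, hS, rfl⟩
  · rw [pow_one]; exact hcast ((coef_le x0).trans h1)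
  · rw [pow_one]; exact hcast ((coef_le y0).trans h2)
  · rw [pow_one]; exact hcast ((coef_le z0).trans h3)

/-- **Few `S`-solutions with two generated bases and a third base of exponential size.** -/
theorem result (S : Finset ℕ) (P : ℕ) (ε : ℝ) (hε : 0 < ε) : ∃ (R : ℕ) (δ : ℝ) (N₀ : ℕ), 0 < δ ∧
    ∀ N : ℕ, N₀ ≤ N → (Terms S P R N (Real.exp ((N : ℝ) ^ δ))).Finite ∧
      ((Terms S P R N (Real.exp ((N : ℝ) ^ δ))).ncard : ℝ) ≤ (N : ℝ) ^ ε := by
  classical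
  obtain ⟨R1, K, δ1, Y1, hδ1, H1⟩ := big Pool.Agent.N741.HB.lp Pool.Agent.N741.HB.pv S
    (P + (S.filter Nat.Prime).card) (ε / 2) (by positivity)
  have hK0 : (0 : ℝ) < ((K + 1 : ℕ) : ℝ) := by exact_mod_cast Nat.succ_pos K
  obtain ⟨R3, δ3, Y3, hδ3, H3⟩ := Pool.Agent.Y902.FD.unit_all S 1 (ε / (2 * ((K + 1 : ℕ) : ℝ)))
    (by positivity)
  obtain ⟨Y4, hY4⟩ : ∃ Y4 : ℕ, ∀ Y : ℕ, Y4 ≤ Y → (2 : ℝ) ≤ (Y : ℝ) ^ (ε / 2) := by
    have h1 := ((tendsto_rpow_atTop (show (0 : ℝ) < ε / 2 by positivity)).comp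
      (tendsto_natCast_atTop_atTop (R := ℝ))).eventually_ge_atTop (2 : ℝ)
    obtain ⟨Y₄, h3⟩ := Filter.eventually_atTop.1 h1
    exact ⟨Y₄, h3⟩
  obtain ⟨Y5, hY5⟩ : ∃ Y5 : ℕ, ∀ Y : ℕ, Y5 ≤ Y → (Y : ℝ) ≤ Real.exp ((Y : ℝ) ^ δ3) := by
    have h1 := (isLittleO_log_rpow_atTop hδ3).bound (show (0 : ℝ) < 1 by norm_num)
    have h2 := (tendsto_natCast_atTop_atTop (R := ℝ)).eventually h1
    obtain ⟨Y₅, h3⟩ := Filter.eventually_atTop.1 (h2.and (Filter.eventually_ge_atTop 1))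
    refine ⟨Y₅, fun Y hY => ?_⟩
    obtain ⟨h4, h5⟩ := h3 Y hY
    have hY0 : (0 : ℝ) < Y := by exact_mod_cast h5
    rw [one_mul, Real.norm_eq_abs, Real.norm_eq_abs, abs_of_nonneg (by positivity :
      (0 : ℝ) ≤ (Y : ℝ) ^ δ3)] at h4
    have h6 := (le_abs_self _).trans h4
    calc (Y : ℝ) = Real.exp (Real.log Y) := (Real.exp_log hY0).symm
      _ ≤ _ := Real.exp_le_exp.2 h6
  refine ⟨R1 + R3 + 2, δ1, Y1 + Y3 + Y4 + Y5 + 2 + ∑ l ∈ S, l, hδ1, fun N hN => ?_⟩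
  have hN2 : 2 ≤ N := by omega
  have hNS : ∀ l ∈ S, l ≤ N := fun l hl => by
    have := Finset.single_le_sum (f := fun l : ℕ => l) (fun _ _ => Nat.zero_le _) hl
    omega
  have hNR : (1 : ℝ) ≤ (N : ℝ) := by exact_mod_cast (by omega : 1 ≤ N)
  obtain ⟨U, hU⟩ : ∃ U, U = Terms S P (R1 + R3 + 2) N (Real.exp ((N : ℝ) ^ δ1)) := ⟨_, rfl⟩
  rw [← hU]
  obtain ⟨A, hA⟩ : ∃ A : Set (ℤ × ℤ × ℤ), A = {t | t ∈ U ∧
    ((N : ℤ) ^ K < |t.1| ∨ (N : ℤ) ^ K < |t.2.1|)} := ⟨_, rfl⟩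
  have hAfin : A.Finite ∧ (A.ncard : ℝ) ≤ (N : ℝ) ^ (ε / 2) := by
    refine Pool.Agent.Y902.GN.fin_of_bound A _ fun T hT => H1 N (by omega) T fun t ht => ?_
    have h1 := hT t ht
    rw [hA] at h1
    obtain ⟨h2, h3⟩ := h1
    rw [hU] at h2
    exact ⟨pt (by omega) hNS (by omega) le_rfl h2, h3⟩
  have hNK : N ≤ N ^ (K + 1) := Nat.le_self_pow (by omega) _
  obtain ⟨h3a, h3b⟩ := H3 (N ^ (K + 1)) (by omega)
  obtain ⟨B, hB⟩ : ∃ B, B = Pool.Agent.Y902.FD.UnitTwo S (N ^ (K + 1)) R3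
      (Real.exp (((N ^ (K + 1) : ℕ) : ℝ) ^ δ3)) ∪
    Pool.Agent.Y902.FD.UnitOne S (N ^ (K + 1)) R3 (((N ^ (K + 1) : ℕ) : ℝ) ^ 1)
      (Real.exp (((N ^ (K + 1) : ℕ) : ℝ) ^ δ3)) := ⟨_, rfl⟩
  rw [← hB] at h3a h3b
  have hsub : U ⊆ A ∪ B := by
    intro t ht
    by_cases h : (N : ℤ) ^ K < |t.1| ∨ (N : ℤ) ^ K < |t.2.1|
    · left
      rw [hA]
      exact ⟨ht, h⟩
    · right
      push Not at h
      rw [hB]
      right
      rw [hU] at ht
      exact small hN2 (by omega) (by omega) (hY5 _ (by omega)) ht h.1 h.2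
  have hfin : (A ∪ B).Finite := hAfin.1.union h3a
  refine ⟨hfin.subset hsub, ?_⟩
  have h4 : (U.ncard : ℝ) ≤ (A.ncard : ℝ) + (B.ncard : ℝ) := by
    exact_mod_cast (Set.ncard_le_ncard hsub hfin).trans (Set.ncard_union_le _ _)
  have h5 : ((N ^ (K + 1) : ℕ) : ℝ) ^ (ε / (2 * ((K + 1 : ℕ) : ℝ))) = (N : ℝ) ^ (ε / 2) := by
    rw [Nat.cast_pow, ← Real.rpow_natCast, ← Real.rpow_mul (by linarith)]
    congr 1
    field_simp
  rw [h5] at h3b
  have h6 := hY4 N (by omega)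
  have h7 := hAfin.2
  calc (U.ncard : ℝ) ≤ (A.ncard : ℝ) + (B.ncard : ℝ) := h4
    _ ≤ 2 * (N : ℝ) ^ (ε / 2) := by linarith
    _ ≤ (N : ℝ) ^ (ε / 2) * (N : ℝ) ^ (ε / 2) := mul_le_mul_of_nonneg_right h6 (by positivity)
    _ = (N : ℝ) ^ ε := by
        rw [← Real.rpow_add (by linarith)]
        congr 1
        ring

end Pool.Agent.Results.MP_be1fae_nt.HugeThirdBase
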