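import Pool.Agent.N671.DA.Win
import Pool.Agent.Results.MP_be1fae_nt.WindowsWithoutSolutions

/-!
# No solutions of the generalised Fermat equation near functions of the denominators of good approximations

Let `α_1, …, α_m` be real numbers. We consider the natural numbers `q` with `‖q α_j - β_j‖ ≤ c q^(-τ)` for all `j`, `‖x‖` the
distance to the nearest integer; for `β = 0`, `c = 1`, `τ = 1 / m` these include the denominators of all best simultaneous
approximations (the denominators of the convergents for `m = 1`). They form a very sparse sequence, with gaps growing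
exponentially for almost all `α` if `τ = 1 / m`.

A solution `a x ^ p + b y ^ q = c z ^ r` with coefficients composed of primes of `S` is called reduced if no prime of `S`
divides `x y z` and `|x|`, `|y|`, `|z|` are `1` or no perfect powers; every solution becomes reduced if the primes of `S`
in the bases are moved to the coefficients and perfect powers to the exponents (which become larger).

Let `G` have steps bounded below by a positive constant and growth at most `v^d`, `d ≥ 1`; for example `G v = a v^d`. Let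
`0 ≤ κ ≤ 1`. If `2 ∉ S`, then for all `α` in `ℝ^m` outside a set of Hausdorff dimension at most `(m + κ) / (1 + τ)` there is
`R` such that for every `c` there is, for all large `q` with `‖q α_j - β_j‖ ≤ c q^(-τ)` for all `j`, NO reduced solution with
two exponents `≥ R` and `|max (|x|, |y|, |z|) - G q| ≤ q^κ`. For every `S` the same holds for the windows
`||x y z| - G q| ≤ q^κ`, with `(m + d / 3 + κ) / (1 + τ)`. One may choose `R` depending only on `S`, `d`, `δ` if the bounds for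
the dimension are replaced by `(m + κ + δ) / (1 + τ)` and `(m + d / 3 + κ + δ) / (1 + τ)`, `δ > 0`.

Proof. The `q` with a solution near `G q` form a set with `O(X^(d s + κ + ε))` elements up to `X`, `s = 0` or `1 / 3`, by the
starting theorem `AllSolutionsByBases` of this problem; and the `α` with `‖q α_j - β_j‖ ≤ c q^(-τ)` for all `j` and infinitely
many `q` of such a set are covered by few small cubes.
-/

set_option autoImplicit false

open Finset Filter Topology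
open scoped ENNReal

namespace Pool.Agent.Results.MP_be1fae_nt.SimultaneousApproximations

open Pool.Agent.N671.DA (Solves Expanding expanding_pow approx_win_nat)
open AllSolutionsByBases (Solution TwoLarge ByBases ByProduct Bases)
open WindowsWithoutSolutions (Reduced Val card_val)

lemma inter_dim {m : ℕ} {s t : ℝ} (G : ℕ → Set (Fin m → ℝ))
    (hG : ∀ j : ℕ, dimH (G j) ≤ ENNReal.ofReal ((s + 1 / ((j : ℝ) + 1)) / t)) :
    dimH (⋂ j, G j) ≤ ENNReal.ofReal (s / t) := by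
  have hlim : Tendsto (fun j : ℕ => ENNReal.ofReal ((s + 1 / ((j : ℝ) + 1)) / t)) atTop
      (𝓝 (ENNReal.ofReal ((s + 0) / t))) :=
    ENNReal.tendsto_ofReal ((tendsto_one_div_add_atTop_nhds_zero_nat.const_add s).div_const t)
  rw [add_zero] at hlim
  exact ge_of_tendsto' hlim fun j => (dimH_mono (Set.iInter_subset _ j)).trans (hG j)

open Classical in
/-- both forms, for a set of values with a count -/
lemma core (S : Finset ℕ) (f : ℕ → ℕ → ℕ → ℕ) {s : ℝ} (hs : 0 ≤ s)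
    (hP : ∀ ε : ℝ, 0 < ε → ∃ (R : ℕ) (C : ℝ), 0 < C ∧ ∀ X : ℕ, 1 ≤ X →
      (((Ioc 0 X).filter (fun t => t ∈ Val S R f)).card : ℝ) ≤ C * (X : ℝ) ^ (s + ε)) (d : ℝ) (hd : 1 ≤ d) :
    (∀ δ : ℝ, 0 < δ → ∃ R : ℕ, ∀ G : ℕ → ℝ, Expanding G d → ∀ κ : ℝ, 0 ≤ κ → κ ≤ 1 →
      ∀ (m : ℕ) (β : Fin m → ℝ) (τ : ℝ), 0 < τ →
      ∃ E : Set (Fin m → ℝ), dimH E ≤ ENNReal.ofReal ((m + d * s + κ + δ) / (1 + τ)) ∧
        ∀ α, α ∉ E → ∀ c : ℝ, ∃ Q : ℕ, ∀ q : ℕ, Q ≤ q → Solves α β q (c * (q : ℝ) ^ (-τ)) →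
          ∀ (a b c x y z : ℤ) (k l r : ℕ), Reduced S R a b c x y z k l r →
            (q : ℝ) ^ κ < |((f x.natAbs y.natAbs z.natAbs : ℕ) : ℝ) - G q|) ∧
    ∀ G : ℕ → ℝ, Expanding G d → ∀ κ : ℝ, 0 ≤ κ → κ ≤ 1 →
      ∀ (m : ℕ) (β : Fin m → ℝ) (τ : ℝ), 0 < τ →
      ∃ E : Set (Fin m → ℝ), dimH E ≤ ENNReal.ofReal ((m + d * s + κ) / (1 + τ)) ∧
        ∀ α, α ∉ E → ∃ R : ℕ, ∀ c : ℝ, ∃ Q : ℕ, ∀ q : ℕ, Q ≤ q → Solves α β q (c * (q : ℝ) ^ (-τ)) →
          ∀ (a b c x y z : ℤ) (k l r : ℕ), Reduced S R a b c x y z k l r →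
            (q : ℝ) ^ κ < |((f x.natAbs y.natAbs z.natAbs : ℕ) : ℝ) - G q| := by
  have h1 : ∀ δ : ℝ, 0 < δ → ∃ R : ℕ, ∀ G : ℕ → ℝ, Expanding G d → ∀ κ : ℝ, 0 ≤ κ → κ ≤ 1 →
      ∀ (m : ℕ) (β : Fin m → ℝ) (τ : ℝ), 0 < τ →
      ∃ E : Set (Fin m → ℝ), dimH E ≤ ENNReal.ofReal ((m + d * s + κ + δ) / (1 + τ)) ∧
        ∀ α, α ∉ E → ∀ c : ℝ, ∃ Q : ℕ, ∀ q : ℕ, Q ≤ q → Solves α β q (c * (q : ℝ) ^ (-τ)) →
          ∀ (a b c x y z : ℤ) (k l r : ℕ), Reduced S R a b c x y z k l r →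
            (q : ℝ) ^ κ < |((f x.natAbs y.natAbs z.natAbs : ℕ) : ℝ) - G q| := by
    intro δ hδ
    have hd0 : 0 < d := by linarith
    obtain ⟨R, C, hC, h⟩ := hP (δ / d) (by positivity)
    refine ⟨R, fun G hG κ hκ hκ1 m β τ hτ => ?_⟩
    obtain ⟨E, hE, hE2⟩ := approx_win_nat (Val S R f) hG (s := s + δ / d) (κ := κ) (by positivity) hκ hκ1
      (fun ε hε => by
        refine ⟨C, fun X hX => (h X hX).trans ?_⟩
        apply mul_le_mul_of_nonneg_left _ hC.le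
        exact Real.rpow_le_rpow_of_exponent_le (by exact_mod_cast hX) (by linarith)) β hτ
    have e1 : (m : ℝ) + (d * (s + δ / d) + κ) = m + d * s + κ + δ := by
      field_simp
      ring
    rw [e1] at hE
    refine ⟨E, hE, fun α hα c => ?_⟩
    obtain ⟨Q, hQ⟩ := hE2 α hα c
    refine ⟨Q, fun q hq h2 a b c x y z k l r hred => ?_⟩
    exact not_le.1 (hQ q hq h2 _ (Or.inr ⟨a, b, c, x, y, z, k, l, r, hred, rfl⟩))
  refine ⟨h1, fun G hG κ hκ hκ1 m β τ hτ => ?_⟩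
  have h2 : ∀ j : ℕ, ∃ (R : ℕ) (E : Set (Fin m → ℝ)),
      dimH E ≤ ENNReal.ofReal ((m + d * s + κ + 1 / ((j : ℝ) + 1)) / (1 + τ)) ∧
        ∀ α, α ∉ E → ∀ c : ℝ, ∃ Q : ℕ, ∀ q : ℕ, Q ≤ q → Solves α β q (c * (q : ℝ) ^ (-τ)) →
          ∀ (a b c x y z : ℤ) (k l r : ℕ), Reduced S R a b c x y z k l r →
            (q : ℝ) ^ κ < |((f x.natAbs y.natAbs z.natAbs : ℕ) : ℝ) - G q| := by
    intro j
    obtain ⟨R, hR⟩ := h1 (1 / ((j : ℝ) + 1)) (by positivity)
    exact ⟨R, hR G hG κ hκ hκ1 m β τ hτ⟩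
  choose R E hE1 hE2 using h2
  refine ⟨⋂ j, E j, inter_dim E hE1, fun α hα => ?_⟩
  rw [Set.mem_iInter, not_forall] at hα
  obtain ⟨j, hj⟩ := hα
  exact ⟨R j, hE2 j α hj⟩

open Classical in
/-- the count of the values of the largest base -/
lemma count_max (S : Finset ℕ) (h2 : 2 ∉ S) (ε : ℝ) (hε : 0 < ε) : ∃ (R : ℕ) (C : ℝ), 0 < C ∧ ∀ X : ℕ, 1 ≤ X →
    ((((Ioc 0 X).filter (fun t => t ∈ Val S R (fun x y z => max (max x y) z))).card : ℕ) : ℝ) ≤
      C * (X : ℝ) ^ (0 + ε) := by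
  obtain ⟨R, C, hC, h⟩ := AllSolutionsByBases.result.2.1 S ε h2 hε
  refine ⟨R, C, hC, fun X hX => ?_⟩
  have hX1 : (1 : ℝ) ≤ X := by exact_mod_cast hX
  obtain ⟨h5, h6⟩ := h X hX1
  have h7 := card_val S R (fun x y z => max (max x y) z) X (ByBases S R X) h5 (by
    intro a b c x y z p q r hred hle
    have hb : ∀ u : ℤ, u.natAbs ≤ X → |(u : ℝ)| ≤ X := by
      intro u hu
      have h8 : ((u.natAbs : ℕ) : ℝ) ≤ X := by exact_mod_cast hu
      rwa [Nat.cast_natAbs, Int.cast_abs] at h8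
    have hle' : max (max x.natAbs y.natAbs) z.natAbs ≤ X := hle
    rw [max_le_iff, max_le_iff] at hle'
    exact ⟨a, b, c, x, y, z, p, q, r, hred.1, rfl, hred.2.1, hred.2.2.2.2.2.2,
      hb x hle'.1.1, hb y hle'.1.2, hb z hle'.2⟩)
  have h9 : (((Ioc 0 X).filter (fun t => t ∈ Val S R (fun x y z => max (max x y) z))).card : ℝ) ≤
      ((ByBases S R X).ncard : ℝ) := by exact_mod_cast h7
  rw [zero_add]
  exact h9.trans h6

open Classical in
/-- the count of the values of the product of the bases -/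
lemma count_prod (S : Finset ℕ) (ε : ℝ) (hε : 0 < ε) : ∃ (R : ℕ) (C : ℝ), 0 < C ∧ ∀ X : ℕ, 1 ≤ X →
    ((((Ioc 0 X).filter (fun t => t ∈ Val S R (fun x y z => x * y * z))).card : ℕ) : ℝ) ≤
      C * (X : ℝ) ^ (1 / 3 + ε) := by
  obtain ⟨R, C, hC, h⟩ := AllSolutionsByBases.result.2.2 S ε hε
  refine ⟨R, C, hC, fun X hX => ?_⟩
  have hX1 : (1 : ℝ) ≤ X := by exact_mod_cast hX
  obtain ⟨h5, h6⟩ := h X hX1
  have h7 := card_val S R (fun x y z => x * y * z) X (ByProduct S R X) h5 (by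
    intro a b c x y z p q r hred hle
    refine ⟨a, b, c, x, y, z, p, q, r, hred.1, rfl, hred.2.1, hred.2.2.2.2.2.2, ?_⟩
    have h8 : ((x.natAbs * y.natAbs * z.natAbs : ℕ) : ℝ) ≤ X := by exact_mod_cast hle
    rw [← Int.natAbs_mul, ← Int.natAbs_mul, Nat.cast_natAbs, Int.cast_abs] at h8
    exact h8)
  have h9 : (((Ioc 0 X).filter (fun t => t ∈ Val S R (fun x y z => x * y * z))).card : ℝ) ≤
      ((ByProduct S R X).ncard : ℝ) := by exact_mod_cast h7
  exact h9.trans h6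

/-- **No solutions near the denominators of good approximations.** Let `S` be a finite set of natural numbers and `d ≥ 1`.
(1) Let `2 ∉ S`. For every `δ > 0` there is `R`, depending only on `S`, `d`, `δ`, such that for all `G` with steps `≥ a > 0`
and growth at most `v^d`, all `0 ≤ κ ≤ 1`, `β` in `ℝ^m` and `τ > 0`, for all `α` in `ℝ^m` outside a set of Hausdorff
dimension at most `(m + κ + δ) / (1 + τ)` and all `c`, for all large `q` with `‖q α_j - β_j‖ ≤ c q^(-τ)` for all `j`, there is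
no reduced `S`-solution `a x ^ k + b y ^ l = c z ^ r` with at least two exponents `≥ R` and
`|max (|x|, |y|, |z|) - G q| ≤ q^κ`. The same holds outside a set of dimension at most `(m + κ) / (1 + τ)` with an `R` which
may depend on all parameters and on `α`.
(2) For every `S` both statements hold for the windows `||x y z| - G q| ≤ q^κ`, with `(m + d / 3 + κ + δ) / (1 + τ)` and
`(m + d / 3 + κ) / (1 + τ)`.
The functions `a v^d` with `a > 0`, `d ≥ 1` are examples of `G`. -/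
theorem result :
    (∀ (S : Finset ℕ) (d : ℝ), 1 ≤ d → 2 ∉ S →
      (∀ δ : ℝ, 0 < δ → ∃ R : ℕ, ∀ G : ℕ → ℝ, Expanding G d → ∀ κ : ℝ, 0 ≤ κ → κ ≤ 1 →
        ∀ (m : ℕ) (β : Fin m → ℝ) (τ : ℝ), 0 < τ →
        ∃ E : Set (Fin m → ℝ), dimH E ≤ ENNReal.ofReal ((m + κ + δ) / (1 + τ)) ∧
          ∀ α, α ∉ E → ∀ c : ℝ, ∃ Q : ℕ, ∀ q : ℕ, Q ≤ q → Solves α β q (c * (q : ℝ) ^ (-τ)) →
            ∀ (a b c x y z : ℤ) (k l r : ℕ), Reduced S R a b c x y z k l r →
              (q : ℝ) ^ κ < |((max (max x.natAbs y.natAbs) z.natAbs : ℕ) : ℝ) - G q|) ∧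
      ∀ G : ℕ → ℝ, Expanding G d → ∀ κ : ℝ, 0 ≤ κ → κ ≤ 1 →
        ∀ (m : ℕ) (β : Fin m → ℝ) (τ : ℝ), 0 < τ →
        ∃ E : Set (Fin m → ℝ), dimH E ≤ ENNReal.ofReal ((m + κ) / (1 + τ)) ∧
          ∀ α, α ∉ E → ∃ R : ℕ, ∀ c : ℝ, ∃ Q : ℕ, ∀ q : ℕ, Q ≤ q → Solves α β q (c * (q : ℝ) ^ (-τ)) →
            ∀ (a b c x y z : ℤ) (k l r : ℕ), Reduced S R a b c x y z k l r →
              (q : ℝ) ^ κ < |((max (max x.natAbs y.natAbs) z.natAbs : ℕ) : ℝ) - G q|) ∧
    (∀ (S : Finset ℕ) (d : ℝ), 1 ≤ d →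
      (∀ δ : ℝ, 0 < δ → ∃ R : ℕ, ∀ G : ℕ → ℝ, Expanding G d → ∀ κ : ℝ, 0 ≤ κ → κ ≤ 1 →
        ∀ (m : ℕ) (β : Fin m → ℝ) (τ : ℝ), 0 < τ →
        ∃ E : Set (Fin m → ℝ), dimH E ≤ ENNReal.ofReal ((m + d / 3 + κ + δ) / (1 + τ)) ∧
          ∀ α, α ∉ E → ∀ c : ℝ, ∃ Q : ℕ, ∀ q : ℕ, Q ≤ q → Solves α β q (c * (q : ℝ) ^ (-τ)) →
            ∀ (a b c x y z : ℤ) (k l r : ℕ), Reduced S R a b c x y z k l r →
              (q : ℝ) ^ κ < |(((x * y * z).natAbs : ℕ) : ℝ) - G q|) ∧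
      ∀ G : ℕ → ℝ, Expanding G d → ∀ κ : ℝ, 0 ≤ κ → κ ≤ 1 →
        ∀ (m : ℕ) (β : Fin m → ℝ) (τ : ℝ), 0 < τ →
        ∃ E : Set (Fin m → ℝ), dimH E ≤ ENNReal.ofReal ((m + d / 3 + κ) / (1 + τ)) ∧
          ∀ α, α ∉ E → ∃ R : ℕ, ∀ c : ℝ, ∃ Q : ℕ, ∀ q : ℕ, Q ≤ q → Solves α β q (c * (q : ℝ) ^ (-τ)) →
            ∀ (a b c x y z : ℤ) (k l r : ℕ), Reduced S R a b c x y z k l r →
              (q : ℝ) ^ κ < |(((x * y * z).natAbs : ℕ) : ℝ) - G q|) ∧
    ∀ a d : ℝ, 0 < a → 1 ≤ d → Expanding (fun v => a * (v : ℝ) ^ d) d := by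
  refine ⟨fun S d hd h2 => ?_, fun S d hd => ?_, fun a d ha hd => expanding_pow ha hd⟩
  · have h := core S (fun x y z => max (max x y) z) le_rfl (fun ε hε => count_max S h2 ε hε) d hd
    simp only [mul_zero, add_zero] at h
    exact h
  · have h := core S (fun x y z => x * y * z) (s := 1 / 3) (by norm_num) (fun ε hε => count_prod S ε hε) d hd
    rw [mul_one_div] at h
    simpa only [Int.natAbs_mul] using h

end Pool.Agent.Results.MP_be1fae_nt.SimultaneousApproximations
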