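import Pool.Agent.N760.IT.C
import Pool.Agent.Results.MP_be1fae_nt.WindowsWithoutSolutions

/-!
# No solutions of the generalised Fermat equation near the members of almost all orbits of Euler's function

A solution `a x ^ p + b y ^ q = c z ^ r` with coefficients composed of primes of `S` is called reduced if no prime of `S`
divides `x y z` and `|x|`, `|y|`, `|z|` are `1` or no perfect powers; every solution becomes reduced if the primes of `S`
in the bases are moved to the coefficients and perfect powers to the exponents (which become larger).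

Let `φ_k` be the `k`-th iterate of Euler's function, `φ_0(m) = m`. Let `f` be a positive multiplicative function of at most
polynomial growth such that `f p ≤ M p` for the large primes `p`, with different values at different large primes; for
example the identity, Euler's function or the sum of the divisors. Let `G` have steps bounded below by a positive constant and
growth at most `v^d`, `d ≥ 1`; for example `G v = α v^d`. Let `0 ≤ θ < 1`.
If `2 ∉ S`, there is `R` (depending on `S`, `d`, `θ`) such that, with some `K(m)` tending to infinity, for almost all `m`,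
for all `k ≤ K(m)`, with `v = f(φ_k(m))`, there is NO reduced solution with two exponents `≥ R` and
`|max (|x|, |y|, |z|) - G v| ≤ v^θ`. If `d / 3 + θ < 1` there is, for every `S`, such an `R` for the windows
`||x y z| - G v| ≤ v^θ`. The iterates of Euler's function are not multiplicative, their values form a thin set and are taken
with very large multiplicities, and so this does not follow from the number of the solutions.

Proof. The number of the solutions is bounded by the starting theorem `AllSolutionsByBases` of this problem, so the `v` near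
whose images there is a solution form a set `W` with a power saving. Let `P` be the largest prime factor of `m`; for most `m`
it is greater than a power of `m` close to `1 / J`, `J → ∞` slowly; `P - 1` divides `φ(m)`, and so on: one finds that
`f(φ_k(m))` is, outside a set of density `0`, determined by few data, and falls into `W` rarely (`Pool.Agent.N760.IT`).
-/

set_option autoImplicit false

open Finset Filter

namespace Pool.Agent.Results.MP_be1fae_nt.TotientOrbits

open Pool.Agent.N733.TG (LM Expanding lm_totient lm_sigma expanding_pow)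
open Pool.Agent.N760.IT (orb lm_id orbit_good_nat)
open Pool.Agent.N826.IT.Orb (AlmostAll almostAll_mono)
open AllSolutionsByBases (Solution TwoLarge ByBases ByProduct Bases)
open WindowsWithoutSolutions (Reduced Val card_val)

/-- **No solutions near the orbits of Euler's function.** `orb f k m` is `f(φ_k(m))`, `φ_k` the `k`-th iterate of Euler's
function, `φ_0(m) = m`. Let `f` be multiplicative and positive, of at most polynomial growth, with `f p ≤ M p` at the large
primes, and injective there. Let `G` have steps `≥ a > 0` and growth at most `v^d`. Let `S` be a finite set and `0 ≤ θ < 1`.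
(1) If `2 ∉ S` there is `R`, depending only on `S`, `d` and `θ`, such that for some `K(m)` tending to infinity, for almost
all `m` (all `m ≤ N` but `o(N)`), for all `k ≤ K(m)`, there is no reduced `S`-solution `a x ^ p + b y ^ q = c z ^ r` with at
least two exponents `≥ R` and `|max (|x|, |y|, |z|) - G (f (φ_k m))| ≤ f(φ_k(m))^θ`.
(2) If `d / 3 + θ < 1` there is `R`, depending only on `S`, `d` and `θ`, such that for some `K(m)` tending to infinity, for
almost all `m`, for all `k ≤ K(m)`, there is no reduced `S`-solution with at least two exponents `≥ R` and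
`||x y z| - G (f (φ_k m))| ≤ f(φ_k(m))^θ`.
The identity, Euler's function and the sum of the divisors are examples of such functions `f`, and `α v^d` with `α > 0`,
`d ≥ 1` is an example of `G`. -/
theorem result :
    (∀ (S : Finset ℕ) (d θ : ℝ), 1 ≤ d → 0 ≤ θ →
      (2 ∉ S → θ < 1 → ∃ R : ℕ, ∀ G : ℕ → ℝ, Expanding G d → ∀ f : ℕ → ℕ, LM f →
        ∃ K : ℕ → ℕ, Tendsto K atTop atTop ∧
        AlmostAll (fun m => ∀ k ≤ K m, ¬ ∃ (a b c x y z : ℤ) (p q r : ℕ), Reduced S R a b c x y z p q r ∧
          |((max (max x.natAbs y.natAbs) z.natAbs : ℕ) : ℝ) - G (orb f k m)| ≤ (orb f k m : ℝ) ^ θ)) ∧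
      (d / 3 + θ < 1 → ∃ R : ℕ, ∀ G : ℕ → ℝ, Expanding G d → ∀ f : ℕ → ℕ, LM f →
        ∃ K : ℕ → ℕ, Tendsto K atTop atTop ∧
        AlmostAll (fun m => ∀ k ≤ K m, ¬ ∃ (a b c x y z : ℤ) (p q r : ℕ), Reduced S R a b c x y z p q r ∧
          |(((x * y * z).natAbs : ℕ) : ℝ) - G (orb f k m)| ≤ (orb f k m : ℝ) ^ θ))) ∧
    (LM (fun m => m) ∧ LM Nat.totient ∧ LM (fun m => ∑ d ∈ m.divisors, d)) ∧
    ∀ α d : ℝ, 0 < α → 1 ≤ d → Expanding (fun v => α * (v : ℝ) ^ d) d := by
  classical
  refine ⟨fun S d θ hd hθ => ⟨fun h2 hθ1 => ?_, fun h1 => ?_⟩, ⟨lm_id, lm_totient, lm_sigma⟩,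
    fun α d hα hd => expanding_pow hα hd⟩
  · have hδ0 : 0 < (1 - θ) / (2 * d) := div_pos (by linarith) (by linarith)
    have hδd : d * ((1 - θ) / (2 * d)) = (1 - θ) / 2 := by field_simp
    obtain ⟨R, C, hC, h⟩ := AllSolutionsByBases.result.2.1 S ((1 - θ) / (2 * d)) h2 hδ0
    refine ⟨R, fun G hG f hf => ?_⟩
    obtain ⟨K, hK, hK2⟩ := orbit_good_nat (fun _ => True) (fun n => n ∉ Val S R (fun x y z => max (max x y) z)) hf hG
      (s := (1 - θ) / (2 * d)) (κ := θ) hδ0.le hθ (by rw [hδd]; linarith) (fun ε hε => by
        refine ⟨C, fun X hX => ?_⟩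
        have hX1 : (1 : ℝ) ≤ X := by exact_mod_cast hX
        obtain ⟨h5, h6⟩ := h X hX1
        have h7 := card_val S R (fun x y z => max (max x y) z) X (ByBases S R X) h5 (by
          intro a b c x y z p q r hred hle
          have hb : ∀ u : ℤ, u.natAbs ≤ X → |(u : ℝ)| ≤ X := by
            intro u hu
            have h8 : ((u.natAbs : ℕ) : ℝ) ≤ X := by exact_mod_cast hu
            rwa [Nat.cast_natAbs, Int.cast_abs] at h8
          have hle' : max (max x.natAbs y.natAbs) z.natAbs ≤ X := hle
          rw [max_le_iff, max_le_iff] at hle'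
          exact ⟨a, b, c, x, y, z, p, q, r, hred.1, rfl, hred.2.1, hred.2.2.2.2.2.2,
            hb x hle'.1.1, hb y hle'.1.2, hb z hle'.2⟩)
        have h9 : (((Ioc 0 X).filter (fun t => t ∈ Val S R (fun x y z => max (max x y) z))).card : ℝ) ≤
            ((ByBases S R X).ncard : ℝ) := by exact_mod_cast h7
        have e : {t : ℕ | 1 ≤ t ∧ t ≤ X ∧ True ∧ ¬ t ∉ Val S R (fun x y z => max (max x y) z)} =
            ((Ioc 0 X).filter (fun t => t ∈ Val S R (fun x y z => max (max x y) z)) : Finset ℕ) := by
          ext t
          simp only [Set.mem_ofPred_eq, Finset.coe_filter, Finset.mem_Ioc, not_not, true_and, Nat.succ_le_iff]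
          exact and_assoc.symm
        rw [e, Set.ncard_coe_finset]
        refine h9.trans (h6.trans ?_)
        apply mul_le_mul_of_nonneg_left _ hC.le
        apply Real.rpow_le_rpow_of_exponent_le hX1
        linarith)
    refine ⟨K, hK, almostAll_mono hK2 (fun m hm k hk => ?_)⟩
    rintro ⟨a, b, c, x, y, z, p, q, r, hred, e3⟩
    refine hm k hk _ ?_ trivial e3 ⟨a, b, c, x, y, z, p, q, r, hred, rfl⟩
    obtain ⟨_, _, _, _, hx, _⟩ := hred.1
    exact le_trans (Nat.one_le_iff_ne_zero.2 (Int.natAbs_ne_zero.2 hx)) (le_trans (le_max_left _ _) (le_max_left _ _))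
  · have hδ0 : 0 < (1 - θ - d / 3) / (2 * d) := div_pos (by linarith) (by linarith)
    have hδd : d * ((1 - θ - d / 3) / (2 * d)) = (1 - θ - d / 3) / 2 := by field_simp
    obtain ⟨R, C, hC, h⟩ := AllSolutionsByBases.result.2.2 S ((1 - θ - d / 3) / (2 * d)) hδ0
    refine ⟨R, fun G hG f hf => ?_⟩
    obtain ⟨K, hK, hK2⟩ := orbit_good_nat (fun _ => True) (fun n => n ∉ Val S R (fun x y z => x * y * z)) hf hG
      (s := 1 / 3 + (1 - θ - d / 3) / (2 * d)) (κ := θ) (by linarith) hθ
      (by rw [mul_add, hδd]; linarith) (fun ε hε => by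
        refine ⟨C, fun X hX => ?_⟩
        have hX1 : (1 : ℝ) ≤ X := by exact_mod_cast hX
        obtain ⟨h5, h6⟩ := h X hX1
        have h7 := card_val S R (fun x y z => x * y * z) X (ByProduct S R X) h5 (by
          intro a b c x y z p q r hred hle
          refine ⟨a, b, c, x, y, z, p, q, r, hred.1, rfl, hred.2.1, hred.2.2.2.2.2.2, ?_⟩
          have h8 : ((x.natAbs * y.natAbs * z.natAbs : ℕ) : ℝ) ≤ X := by exact_mod_cast hle
          rw [← Int.natAbs_mul, ← Int.natAbs_mul, Nat.cast_natAbs, Int.cast_abs] at h8
          exact h8)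
        have h9 : (((Ioc 0 X).filter (fun t => t ∈ Val S R (fun x y z => x * y * z))).card : ℝ) ≤
            ((ByProduct S R X).ncard : ℝ) := by exact_mod_cast h7
        have e : {t : ℕ | 1 ≤ t ∧ t ≤ X ∧ True ∧ ¬ t ∉ Val S R (fun x y z => x * y * z)} =
            ((Ioc 0 X).filter (fun t => t ∈ Val S R (fun x y z => x * y * z)) : Finset ℕ) := by
          ext t
          simp only [Set.mem_ofPred_eq, Finset.coe_filter, Finset.mem_Ioc, not_not, true_and, Nat.succ_le_iff]
          exact and_assoc.symm
        rw [e, Set.ncard_coe_finset]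
        refine h9.trans (h6.trans ?_)
        apply mul_le_mul_of_nonneg_left _ hC.le
        apply Real.rpow_le_rpow_of_exponent_le hX1
        linarith)
    refine ⟨K, hK, almostAll_mono hK2 (fun m hm k hk => ?_)⟩
    rintro ⟨a, b, c, x, y, z, p, q, r, hred, e3⟩
    have e4 : (x * y * z).natAbs = x.natAbs * y.natAbs * z.natAbs := by rw [Int.natAbs_mul, Int.natAbs_mul]
    refine hm k hk (x * y * z).natAbs ?_ trivial e3 ⟨a, b, c, x, y, z, p, q, r, hred, e4⟩
    obtain ⟨_, _, _, _, hx, hy, hz, _⟩ := hred.1
    exact Nat.one_le_iff_ne_zero.2 (Int.natAbs_ne_zero.2 (mul_ne_zero (mul_ne_zero hx hy) hz))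

end Pool.Agent.Results.MP_be1fae_nt.TotientOrbits
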